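import Mathlib

/-!
Definitions used in the statement about sum-of-squares certificates for the tetrahedron problem.
-/

set_option autoImplicit false

namespace Pool.Agent.NoFlag

/-- The mean of a real function on a finite type. -/
noncomputable def avg {ι : Type} [Fintype ι] (F : ι → ℝ) : ℝ :=
  (∑ i, F i) / (Fintype.card ι : ℝ)

/-- The labelled hypergraph that `E` induces on the labels `α` along `θ`. -/
def sub {α β : Type} [Fintype α] [DecidableEq β] (E : Finset (Finset β)) (θ : α → β) :
    Finset (Finset α) :=
  Finset.univ.filter fun s => s.image θ ∈ E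

open Classical in
/-- The Fon-der-Flaass 3-graph of the digraph `r`: the 3-sets that have neither an isolated vertex
nor a vertex of out-degree 2. -/
noncomputable def fdf {α : Type} [Fintype α] (r : α → α → Prop) : Finset (Finset α) :=
  Finset.univ.filter fun s => s.card = 3 ∧ (¬∃ v ∈ s, ∀ u ∈ s, ¬r u v ∧ ¬r v u) ∧
    ¬∃ v ∈ s, ∀ u ∈ s, u ≠ v → r v u

/-- The indicator that `{x, y, z}` is an edge of `E`. -/
def ind {β : Type} [DecidableEq β] (E : Finset (Finset β)) (x y z : β) : ℝ :=
  if ({x, y, z} : Finset β) ∈ E then 1 else 0

end Pool.Agent.NoFlag
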