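import Pool.Agent.Work.MP_f1799f_co.NG.Pattern

/-!
Order estimates in the small parameter `a` for squares, regularity terms and multipliers.
-/

set_option autoImplicit false
set_option linter.unusedSectionVars false

namespace Pool.Agent.NoFlag

open Finset Polynomial

section
variable {α β : Type} [Fintype α] [DecidableEq α] [Fintype β] [DecidableEq β]

/-- At least one coordinate lies on the upper level. -/
def One (x : α → V) : Prop := ∃ p, (x p).2 = true

theorem W_nonneg {a : ℝ} (h0 : 0 ≤ a) (h1 : a ≤ 1 / 6) (x : α → V) : 0 ≤ ∏ p, w a (x p) :=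
  Finset.prod_nonneg fun _ _ => w_nonneg h0 h1 _

theorem le_sixth {b : ℝ} {N : ℕ} (hN : 1 ≤ N) (h0 : 0 ≤ b) (h1 : b * N ≤ 1 / 6) : b ≤ 1 / 6 := by
  have : (1 : ℝ) ≤ N := by exact_mod_cast hN
  nlinarith

theorem lam_pow {b : ℝ} {N k : ℕ} (hN : 1 ≤ N) (h0 : 0 ≤ b) (h1 : b * N ≤ 1 / 6) (hk : k ≤ N) :
    ((1 - 3 * b)⁻¹) ^ k ≤ 2 := by
  have hb := le_sixth hN h0 h1
  have hp : 0 < 1 - 3 * b := by linarith
  have h2 : 1 ≤ (1 - 3 * b)⁻¹ := (one_le_inv₀ hp).mpr (by linarith)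
  refine le_trans (pow_le_pow_right₀ h2 hk) ?_
  have h3 := one_add_mul_sub_le_pow (a := 1 - 3 * b) (by linarith) N
  rw [inv_pow, inv_le_comm₀ (by positivity) (by norm_num)]
  linarith

theorem W_le_W {a b : ℝ} {N : ℕ} (hN : 1 ≤ N) (h0 : 0 ≤ a) (hab : a ≤ b) (h1 : b * N ≤ 1 / 6)
    (hα : Fintype.card α ≤ N) (x : α → V) (s : Finset α) :
    ∏ p ∈ s, w a (x p) ≤ 2 * ∏ p ∈ s, w b (x p) := by
  have hb := le_sixth hN (h0.trans hab) h1
  calc ∏ p ∈ s, w a (x p) ≤ ∏ p ∈ s, ((1 - 3 * b)⁻¹ * w b (x p)) :=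
        Finset.prod_le_prod (fun p _ => w_nonneg h0 (hab.trans hb) _)
          fun p _ => w_le_mul h0 hab hb _
    _ = ((1 - 3 * b)⁻¹) ^ s.card * ∏ p ∈ s, w b (x p) := by
        rw [Finset.prod_mul_distrib, Finset.prod_const]
    _ ≤ _ := mul_le_mul_of_nonneg_right
        (lam_pow hN (h0.trans hab) h1 ((Finset.card_le_univ s).trans hα))
        (Finset.prod_nonneg fun _ _ => w_nonneg (h0.trans hab) hb _)

theorem W_two {x : α → V} (h : Two x) : ∃ s : Finset α, ∀ a : ℝ,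
    ∏ p, w a (x p) = a ^ 2 * ∏ p ∈ s, w a (x p) := by
  obtain ⟨p, q, hpq, hp, hq⟩ := h
  refine ⟨Finset.univ \ {p, q}, fun a => ?_⟩
  rw [← Finset.prod_sdiff (Finset.subset_univ {p, q}), Finset.prod_pair hpq]
  simp only [w, hp, hq, if_true]
  ring

theorem Ex_small {a B : ℝ} {N : ℕ} (h0 : 0 ≤ a) (h1 : a ≤ 1 / 6) (hB : 0 ≤ B)
    (hα : Fintype.card α ≤ N) {H : (α → V) → ℝ} (hH : ∀ x, |H x| ≤ B)
    (hz : ∀ x, ¬Two x → H x = 0) : |Ex (w a) H| ≤ 9 * (N : ℝ) ^ 2 * a ^ 2 * B := by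
  set I : V → ℝ := fun v => if v.2 = true then 1 else 0 with hI
  have hI0 : ∀ v, 0 ≤ I v := fun v => by
    simp only [hI]
    split_ifs <;> norm_num
  set G : (α → V) → ℝ := fun x => B * ∑ pq ∈ (Finset.univ : Finset α).offDiag,
    I (x pq.1) * I (x pq.2) with hG
  have hHG : ∀ x, |H x| ≤ G x := by
    intro x
    by_cases hx : Two x
    · obtain ⟨p, q, hpq, hp, hq⟩ := hx
      have := Finset.single_le_sum (s := (Finset.univ : Finset α).offDiag)
        (f := fun pq => I (x pq.1) * I (x pq.2)) (fun pq _ => mul_nonneg (hI0 _) (hI0 _))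
        (a := (p, q)) (by simp [hpq])
      simp only [hI, hp, hq, if_true, mul_one] at this
      exact le_trans (hH x) (le_mul_of_one_le_right hB this)
    · rw [hz x hx, abs_zero]
      exact mul_nonneg hB (Finset.sum_nonneg fun pq _ => mul_nonneg (hI0 _) (hI0 _))
  have hpair : ∀ pq ∈ (Finset.univ : Finset α).offDiag,
      Ex (w a) (fun x : α → V => I (x pq.1) * I (x pq.2)) ≤ 9 * a ^ 2 := by
    intro pq hpq
    have hne : pq.1 ≠ pq.2 := (Finset.mem_offDiag.mp hpq).2.2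
    have hinj : Function.Injective ![pq.1, pq.2] := by
      intro i j hij
      fin_cases i <;> fin_cases j
      · rfl
      · exact absurd hij hne
      · exact absurd hij.symm hne
      · rfl
    have := Ex_inj (w a) (sum_w a) _ hinj (fun y : Fin 2 → V => I (y 0) * I (y 1))
    rw [Ex_fin2 (w a) fun y z => I y * I z] at this
    refine le_of_eq (Eq.trans ?_ (this.trans ?_))
    · rfl
    · simp only [sumV]
      simp [w, hI]
      ring
  have hEG : Ex (w a) G ≤ 9 * (N : ℝ) ^ 2 * a ^ 2 * B := by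
    rw [hG, Ex_mul_left, Ex_sum]
    have h2 := Finset.sum_le_card_nsmul _ _ _ hpair
    have h3 : ((Finset.univ : Finset α).offDiag.card : ℝ) ≤ (N : ℝ) ^ 2 := by
      rw [Finset.offDiag_card, Finset.card_univ]
      have : Fintype.card α * Fintype.card α - Fintype.card α ≤ N ^ 2 :=
        le_trans (Nat.sub_le _ _) (by rw [sq]; exact Nat.mul_le_mul hα hα)
      exact_mod_cast this
    rw [nsmul_eq_mul] at h2
    calc _ ≤ B * ((N : ℝ) ^ 2 * (9 * a ^ 2)) := mul_le_mul_of_nonneg_left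
          (h2.trans (mul_le_mul_of_nonneg_right h3 (by positivity))) hB
      _ = _ := by ring
  rw [abs_le]
  constructor
  · have := Ex_mono (w a) (w_nonneg h0 h1) (F := fun x => -1 * G x) (G := H)
      fun x => by linarith [(abs_le.mp (hHG x)).1]
    rw [Ex_mul_left] at this
    linarith
  · exact le_trans (Ex_mono (w a) (w_nonneg h0 h1) fun x => (abs_le.mp (hHG x)).2) hEG

/-- The weights as polynomials in the small parameter. -/
noncomputable def wp (v : V) : ℝ[X] := if v.2 = true then X else C (1 / 3) - X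

theorem wp_eval (a : ℝ) (v : V) : (wp v).eval a = w a v := by
  unfold wp w
  split_ifs <;> simp

theorem wp_deg (v : V) : (wp v).natDegree ≤ 1 := by
  unfold wp
  split_ifs
  · exact natDegree_X_le
  · refine le_trans (natDegree_sub_le _ _) (max_le ?_ natDegree_X_le)
    rw [natDegree_C]
    exact Nat.zero_le _

theorem Ex_poly (e : ℕ) (H : (α → V) → ℝ)
    (hz : ∀ x, H x = 0 ∨ (X : ℝ[X]) ^ e ∣ ∏ p, wp (x p)) :
    ∃ q : ℝ[X], q.natDegree ≤ Fintype.card α ∧ ∀ a, Ex (w a) H = a ^ e * q.eval a := by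
  set P : ℝ[X] := ∑ x : α → V, (∏ p, wp (x p)) * C (H x) with hP
  have hev : ∀ a, P.eval a = Ex (w a) H := by
    intro a
    rw [hP, eval_finsetSum]
    unfold Ex
    refine Finset.sum_congr rfl fun x _ => ?_
    rw [eval_mul, eval_C, eval_prod]
    simp only [wp_eval]
  have hdeg : P.natDegree ≤ Fintype.card α := by
    refine natDegree_sum_le_of_forall_le _ _ fun x _ => ?_
    refine le_trans (natDegree_mul_C_le _ _) (le_trans (natDegree_prod_le _ _) ?_)
    calc ∑ p, (wp (x p)).natDegree ≤ ∑ _p : α, 1 := Finset.sum_le_sum fun p _ => wp_deg _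
      _ = Fintype.card α := by simp
  have hdvd : (X : ℝ[X]) ^ e ∣ P := by
    refine Finset.dvd_sum fun x _ => ?_
    rcases hz x with h | h
    · rw [h]
      simp
    · exact h.mul_right _
  obtain ⟨q, hq⟩ := hdvd
  by_cases h0 : P = 0
  · refine ⟨0, by simp, fun a => ?_⟩
    rw [← hev, h0]
    simp
  · refine ⟨q, le_trans (natDegree_le_of_dvd ⟨X ^ e, by rw [hq, mul_comm]⟩ h0) hdeg, fun a => ?_⟩
    rw [← hev, hq]
    simp

theorem dvd_of_one {x : α → V} (h : One x) : (X : ℝ[X]) ^ 1 ∣ ∏ p, wp (x p) := by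
  obtain ⟨p, hp⟩ := h
  have := Finset.dvd_prod_of_mem (fun p => wp (x p)) (Finset.mem_univ p)
  simpa [wp, hp] using this

theorem dvd_of_two {x : α → V} (h : Two x) : (X : ℝ[X]) ^ 2 ∣ ∏ p, wp (x p) := by
  obtain ⟨p, q, hpq, hp, hq⟩ := h
  have := Finset.prod_dvd_prod_of_subset {p, q} Finset.univ (fun p => wp (x p))
    (Finset.subset_univ _)
  rw [Finset.prod_pair hpq] at this
  simpa [wp, hp, hq, sq] using this

/-- Value of a square term on the balanced pattern. -/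
noncomputable def Qb (f : Finset (Finset (α ⊕ β)) → ℝ) (a : ℝ) : ℝ :=
  Ex (w a) fun r : α → V => Ex (w a) (fun z : β → V => f (gr (Sum.elim r z))) ^ 2

/-- Value of a square term on the unbalanced pattern. -/
noncomputable def Qu (f : Finset (Finset (α ⊕ β)) → ℝ) (a : ℝ) : ℝ :=
  Ex (w a) fun r : α → V => Ex (w a) (fun z : β → V => f (gr (Sum.elim (phi ∘ r) (phi ∘ z)))) ^ 2

theorem Qb_nonneg (f : Finset (Finset (α ⊕ β)) → ℝ) {a : ℝ} (h0 : 0 ≤ a) (h1 : a ≤ 1 / 6) :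
    0 ≤ Qb f a := Ex_nonneg _ (w_nonneg h0 h1) fun _ => sq_nonneg _

theorem Qu_nonneg (f : Finset (Finset (α ⊕ β)) → ℝ) {a : ℝ} (h0 : 0 ≤ a) (h1 : a ≤ 1 / 6) :
    0 ≤ Qu f a := Ex_nonneg _ (w_nonneg h0 h1) fun _ => sq_nonneg _

theorem Ex_phi_le {a : ℝ} {N : ℕ} (hN : 1 ≤ N) (h0 : 0 ≤ a) (h1 : a * N ≤ 1 / 6)
    {G : (α → V) → ℝ} (hG : ∀ x, 0 ≤ G x) (hα : Fintype.card α ≤ N) :
    Ex (w a) (fun x => G (phi ∘ x)) ≤ 2 * Ex (w a) G := by
  have ha := le_sixth hN h0 h1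
  rw [Ex_push]
  refine le_trans (Ex_le_pow (w a) _ _ (fun v => (push_phi h0 ha v).1)
    (fun v => (push_phi h0 ha v).2) hG) ?_
  exact mul_le_mul_of_nonneg_right (lam_pow hN h0 h1 hα) (Ex_nonneg _ (w_nonneg h0 ha) hG)

theorem sq_bound {N : ℕ} (hN : 1 ≤ N) (hα : Fintype.card α ≤ N)
    (f : Finset (Finset (α ⊕ β)) → ℝ) {a : ℝ} (ha0 : 0 < a) (ha1 : a * N ≤ 1 / 6) :
    ∃ S : ℝ[X], S.natDegree ≤ 2 * Fintype.card β ∧
      Qu f a ≤ 4 * Qb f a + 2 * a ^ 4 * S.eval a ∧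
      ∀ b, a ≤ b → b * N ≤ 1 / 6 → 0 ≤ S.eval b ∧ b ^ 4 * S.eval b ≤ 4 * Qu f b + 8 * Qb f b := by
  set A : ℝ → (α → V) → ℝ := fun b r => Ex (w b) fun z : β → V => f (gr (Sum.elim r z)) with hA
  set B : ℝ → (α → V) → ℝ :=
    fun b r => Ex (w b) fun z : β → V => f (gr (Sum.elim (phi ∘ r) (phi ∘ z))) with hB
  set D : (α → V) → ℝ → ℝ := fun r b => B b r - A b (phi ∘ r) with hD
  have hG : ∀ b : ℝ, 0 ≤ b → b * N ≤ 1 / 6 →
      Ex (w b) (fun r => A b (phi ∘ r) ^ 2) ≤ 2 * Qb f b := fun b h0 h1 =>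
    Ex_phi_le hN h0 h1 (G := fun r => A b r ^ 2) (fun _ => sq_nonneg _) hα
  have hDE : ∀ r b, D r b = Ex (w b) fun z : β → V =>
      f (gr (Sum.elim (phi ∘ r) (phi ∘ z))) - f (gr (Sum.elim (phi ∘ r) z)) := fun r b => by
    rw [Ex_sub]
  have hpt : ∀ r : α → V, ∃ (q : ℝ[X]) (ω : ℝ), q.natDegree ≤ Fintype.card β ∧ 0 ≤ ω ∧
      (∏ p, w a (r p)) * D r a ^ 2 = a ^ 4 * (ω * q.eval a ^ 2) ∧
      ∀ b, a ≤ b → b * N ≤ 1 / 6 →
        b ^ 4 * (ω * q.eval b ^ 2) ≤ 2 * ((∏ p, w b (r p)) * D r b ^ 2) := by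
    intro r
    have ha := le_sixth hN ha0.le ha1
    by_cases hr : Two r
    · obtain ⟨q, hq, hqe⟩ := Ex_poly 1 (fun z : β → V =>
        f (gr (Sum.elim (phi ∘ r) (phi ∘ z))) - f (gr (Sum.elim (phi ∘ r) z))) (fun z => by
          by_cases hz : One z
          · exact Or.inr (dvd_of_one hz)
          · left
            have : phi ∘ z = z := funext fun p =>
              phi_low _ (Bool.eq_false_iff.mpr fun h => hz ⟨p, h⟩)
            rw [this, sub_self])
      obtain ⟨s, hs⟩ := W_two hr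
      refine ⟨q, ∏ p ∈ s, w a (r p), hq, Finset.prod_nonneg fun _ _ => w_nonneg ha0.le ha _,
        ?_, fun b hab hb => ?_⟩
      · rw [hDE, hqe, hs]
        ring
      · rw [hDE, hqe, hs]
        have := mul_le_mul_of_nonneg_left (W_le_W hN ha0.le hab hb hα r s)
          (mul_nonneg (pow_nonneg (ha0.le.trans hab) 4) (sq_nonneg (q.eval b)))
        calc _ = b ^ 4 * q.eval b ^ 2 * ∏ p ∈ s, w a (r p) := by ring
          _ ≤ _ := this
          _ = _ := by ring
    · obtain ⟨q, hq, hqe⟩ := Ex_poly 2 (fun z : β → V =>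
        f (gr (Sum.elim (phi ∘ r) (phi ∘ z))) - f (gr (Sum.elim (phi ∘ r) z))) (fun z => by
          by_cases hz : Two z
          · exact Or.inr (dvd_of_two hz)
          · left
            rw [gr_elim_two hr hz, sub_self])
      refine ⟨q, ∏ p, w a (r p), hq, W_nonneg ha0.le ha r, ?_, fun b hab hb => ?_⟩
      · rw [hDE, hqe]
        ring
      · rw [hDE, hqe]
        have := mul_le_mul_of_nonneg_left (W_le_W hN ha0.le hab hb hα r Finset.univ)
          (mul_nonneg (pow_nonneg (ha0.le.trans hab) 4) (sq_nonneg (q.eval b)))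
        calc _ = b ^ 4 * q.eval b ^ 2 * ∏ p, w a (r p) := by ring
          _ ≤ _ := this
          _ = _ := by ring
  choose q ω hq hω h1 h2 using hpt
  have hev : ∀ b, (∑ r, C (ω r) * q r ^ 2).eval b = ∑ r, ω r * (q r).eval b ^ 2 := by
    intro b
    rw [eval_finsetSum]
    simp
  refine ⟨∑ r, C (ω r) * q r ^ 2, ?_, ?_, fun b hab hb => ⟨?_, ?_⟩⟩
  · refine natDegree_sum_le_of_forall_le _ _ fun r _ => ?_
    exact le_trans (natDegree_C_mul_le _ _)
      (le_trans natDegree_pow_le (Nat.mul_le_mul_left 2 (hq r)))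
  · have ha := le_sixth hN ha0.le ha1
    have k1 : Qu f a ≤ Ex (w a) (fun r => 2 * A a (phi ∘ r) ^ 2 + 2 * D r a ^ 2) :=
      Ex_mono _ (w_nonneg ha0.le ha) fun r => by
        change B a r ^ 2 ≤ _
        simp only [hD]
        nlinarith [sq_nonneg (B a r - 2 * A a (phi ∘ r))]
    rw [Ex_add, Ex_mul_left, Ex_mul_left] at k1
    have k2 : Ex (w a) (fun r => D r a ^ 2) = a ^ 4 * ∑ r, ω r * (q r).eval a ^ 2 := by
      rw [Finset.mul_sum]
      exact Finset.sum_congr rfl fun r _ => h1 r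
    have k3 := hG a ha0.le ha1
    rw [hev]
    linarith
  · rw [hev]
    exact Finset.sum_nonneg fun r _ => mul_nonneg (hω r) (sq_nonneg _)
  · have hb0 := ha0.le.trans hab
    have hb1 := le_sixth hN hb0 hb
    have k1 : Ex (w b) (fun r => D r b ^ 2) ≤
        Ex (w b) (fun r => 2 * B b r ^ 2 + 2 * A b (phi ∘ r) ^ 2) :=
      Ex_mono _ (w_nonneg hb0 hb1) fun r => by
        simp only [hD]
        nlinarith [sq_nonneg (B b r + A b (phi ∘ r))]
    rw [Ex_add, Ex_mul_left, Ex_mul_left] at k1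
    have k2 : b ^ 4 * ∑ r, ω r * (q r).eval b ^ 2 ≤ 2 * Ex (w b) (fun r => D r b ^ 2) := by
      unfold Ex
      rw [Finset.mul_sum, Finset.mul_sum]
      exact Finset.sum_le_sum fun r _ => h2 r b hab hb
    have k3 := hG b hb0 hb
    have k4 : Ex (w b) (fun r => B b r ^ 2) = Qu f b := rfl
    rw [hev]
    linarith

theorem Ex_rot (a : ℝ) (F : (α → V) → ℝ) : Ex (w a) (fun x => F (rot ∘ x)) = Ex (w a) F := by
  rw [Ex_push, push_rot]

theorem low_rot (x : α → V) : gr (low ∘ (rot ∘ x)) = gr (low ∘ x) := by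
  have : low ∘ (rot ∘ x) = rot ∘ (low ∘ x) := rfl
  rw [this, gr_rot]

theorem Ex_gam (a : ℝ) (g : Finset (Finset α) → ℝ) (i : α) :
    3 * Ex (w a) (fun r : α → V => g (gr (low ∘ r)) * gam (r i)) =
      Ex (w a) (fun r : α → V => g (gr (low ∘ r)) * if (r i).2 = true then -3 else 0) := by
  have h1 := Ex_rot a (fun r : α → V => g (gr (low ∘ r)) * gam (r i))
  have h2 := Ex_rot a (fun r : α → V => g (gr (low ∘ r)) * gam (rot (r i)))
  simp only [low_rot, Function.comp_apply] at h1 h2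
  simp only [← gam_rot, mul_add, Ex_add]
  linarith

theorem Ex_swap (a : ℝ) (G : Finset (Finset α) → ℝ) (Γ : Bool → ℝ) (i j : α) :
    Ex (w a) (fun r : α → V => G (gr (low ∘ r)) * Γ (r i).2) =
      Ex (w a) (fun r : α → V => G (gr (low ∘ r)) * Γ (r j).2) := by
  let τ : (α → V) → (α → V) := fun r p => ((r p).1, (r (Equiv.swap i j p)).2)
  have hτ : Function.Involutive τ := fun r => by
    funext p
    simp [τ]
  unfold Ex
  rw [← Equiv.sum_comp (hτ.toPerm τ)]
  refine Finset.sum_congr rfl fun r _ => ?_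
  have e1 : low ∘ (hτ.toPerm τ r) = low ∘ r := rfl
  have e2 : ((hτ.toPerm τ r) i).2 = (r j).2 := by
    change (r (Equiv.swap i j i)).2 = _
    rw [Equiv.swap_apply_left]
  have e3 : ∏ p, w a ((hτ.toPerm τ r) p) = ∏ p, w a (r p) :=
    Equiv.prod_comp (Equiv.swap i j) fun p => w a (r p)
  beta_reduce
  rw [e1, e2, e3]

theorem reg_bound {a M : ℝ} {N : ℕ} (h0 : 0 ≤ a) (h1 : a ≤ 1 / 6) (hα : Fintype.card α ≤ N)
    (g : Finset (Finset α) → ℝ) (hg : ∀ F, |g F| ≤ M) (i j : α) :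
    |Ex (w a) (fun r : α → V => g (gr (phi ∘ r)) * (gam (r i) - gam (r j)))| ≤
      9 * (N : ℝ) ^ 2 * a ^ 2 * (6 * M) := by
  have hM : 0 ≤ M := le_trans (abs_nonneg _) (hg ∅)
  have hz : Ex (w a) (fun r : α → V => g (gr (low ∘ r)) * (gam (r i) - gam (r j))) = 0 := by
    simp only [mul_sub, Ex_sub]
    have e1 := Ex_gam a g i
    have e2 := Ex_gam a g j
    have e3 := Ex_swap a g (fun l => if l = true then -3 else 0) i j
    linarith
  have e : Ex (w a) (fun r : α → V => g (gr (phi ∘ r)) * (gam (r i) - gam (r j))) =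
      Ex (w a) (fun r : α → V =>
        (g (gr (phi ∘ r)) - g (gr (low ∘ r))) * (gam (r i) - gam (r j))) := by
    simp only [sub_mul, Ex_sub]
    simp only [mul_sub, Ex_sub] at hz ⊢
    linarith
  rw [e]
  refine Ex_small h0 h1 (by positivity) hα (fun r => ?_) fun r hr => ?_
  · rw [abs_mul]
    have k1 : |g (gr (phi ∘ r)) - g (gr (low ∘ r))| ≤ 2 * M :=
      le_trans (abs_sub _ _) (by linarith [hg (gr (phi ∘ r)), hg (gr (low ∘ r))])
    calc _ ≤ 2 * M * 3 := mul_le_mul k1 (gam_diff _ _) (abs_nonneg _) (by positivity)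
      _ = 6 * M := by ring
  · rw [gr_phi_low hr, sub_self, zero_mul]

theorem Ex_low (a : ℝ) (h : Finset (Finset α) → ℝ) :
    Ex (w a) (fun r : α → V => h (gr (low ∘ r))) =
      avg fun b : α → ZMod 3 => h (fdf fun u v => b v = b u + 1) := by
  simp only [gr_low]
  rw [Ex_push (w a) Prod.fst (fun b : α → ZMod 3 => h (fdf fun u v => b v = b u + 1)), push_fst]
  unfold Ex avg
  rw [Finset.sum_div]
  refine Finset.sum_congr rfl fun b _ => ?_
  simp [ZMod.card, div_eq_mul_inv, mul_comm]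

theorem mult_bound {a M : ℝ} {N : ℕ} (h0 : 0 ≤ a) (h1 : a ≤ 1 / 6) (hα : Fintype.card α ≤ N)
    (h : Finset (Finset α) → ℝ) (hh : ∀ F, |h F| ≤ M) :
    |Ex (w a) (fun r : α → V => h (gr (phi ∘ r))) -
      avg fun b : α → ZMod 3 => h (fdf fun u v => b v = b u + 1)| ≤
      9 * (N : ℝ) ^ 2 * a ^ 2 * (2 * M) := by
  have hM : 0 ≤ M := le_trans (abs_nonneg _) (hh ∅)
  rw [← Ex_low a, ← Ex_sub]
  refine Ex_small h0 h1 (by positivity) hα (fun r => ?_) fun r hr => ?_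
  · exact le_trans (abs_sub _ _) (by linarith [hh (gr (phi ∘ r)), hh (gr (low ∘ r))])
  · rw [gr_phi_low hr, sub_self]

end

end Pool.Agent.NoFlag
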