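import Pool.Agent.Work.MP_f1799f_co.NG.Defs

/-!
Independent sampling from a finite weighted set.
-/

set_option autoImplicit false

namespace Pool.Agent.NoFlag

open Finset

/-- Expectation of `F` for independent samples with weights `w`. -/
noncomputable def Ex {V α : Type} [Fintype V] [Fintype α] [DecidableEq α] (w : V → ℝ)
    (F : (α → V) → ℝ) : ℝ :=
  ∑ x : α → V, (∏ p, w (x p)) * F x

section
variable {V α β : Type} [Fintype V] [Fintype α] [DecidableEq α] [Fintype β] [DecidableEq β]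
  (w : V → ℝ)

theorem Ex_const (hw : ∑ v, w v = 1) (c : ℝ) : Ex w (fun _ : α → V => c) = c := by
  unfold Ex
  rw [← Finset.sum_mul]
  have h := Finset.prod_univ_sum (fun _ : α => (Finset.univ : Finset V)) (fun _ v => w v)
  rw [Fintype.piFinset_univ] at h
  rw [← h]
  simp [hw]

theorem Ex_add (F G : (α → V) → ℝ) : Ex w (fun x => F x + G x) = Ex w F + Ex w G := by
  unfold Ex
  rw [← Finset.sum_add_distrib]
  exact Finset.sum_congr rfl fun x _ => by ring

theorem Ex_sub (F G : (α → V) → ℝ) : Ex w (fun x => F x - G x) = Ex w F - Ex w G := by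
  unfold Ex
  rw [← Finset.sum_sub_distrib]
  exact Finset.sum_congr rfl fun x _ => by ring

theorem Ex_mul_left (c : ℝ) (F : (α → V) → ℝ) : Ex w (fun x => c * F x) = c * Ex w F := by
  unfold Ex
  rw [Finset.mul_sum]
  exact Finset.sum_congr rfl fun x _ => by ring

theorem Ex_mul_right (c : ℝ) (F : (α → V) → ℝ) : Ex w (fun x => F x * c) = Ex w F * c := by
  unfold Ex
  rw [Finset.sum_mul]
  exact Finset.sum_congr rfl fun x _ => by ring

theorem Ex_sum {ι : Type} (s : Finset ι) (F : ι → (α → V) → ℝ) :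
    Ex w (fun x => ∑ i ∈ s, F i x) = ∑ i ∈ s, Ex w (F i) := by
  unfold Ex
  rw [Finset.sum_comm]
  exact Finset.sum_congr rfl fun x _ => by rw [Finset.mul_sum]

theorem Ex_mono (hw : ∀ v, 0 ≤ w v) {F G : (α → V) → ℝ} (h : ∀ x, F x ≤ G x) :
    Ex w F ≤ Ex w G :=
  Finset.sum_le_sum fun x _ =>
    mul_le_mul_of_nonneg_left (h x) (Finset.prod_nonneg fun _ _ => hw _)

theorem Ex_nonneg (hw : ∀ v, 0 ≤ w v) {F : (α → V) → ℝ} (h : ∀ x, 0 ≤ F x) : 0 ≤ Ex w F :=
  Finset.sum_nonneg fun x _ => mul_nonneg (Finset.prod_nonneg fun _ _ => hw _) (h x)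

theorem Ex_abs_le (hw : ∀ v, 0 ≤ w v) (hw1 : ∑ v, w v = 1) {F : (α → V) → ℝ} {B : ℝ}
    (h : ∀ x, |F x| ≤ B) : |Ex w F| ≤ B := by
  rw [abs_le]
  constructor
  · rw [← Ex_const (α := α) w hw1 (-B)]
    exact Ex_mono w hw fun x => (abs_le.mp (h x)).1
  · rw [← Ex_const (α := α) w hw1 B]
    exact Ex_mono w hw fun x => (abs_le.mp (h x)).2

theorem Ex_sum_type (F : (α ⊕ β → V) → ℝ) :
    Ex w F = Ex w (fun y : α → V => Ex w (fun z : β → V => F (Sum.elim y z))) := by
  unfold Ex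
  rw [← (Equiv.sumArrowEquivProdArrow α β V).symm.sum_comp, Fintype.sum_prod_type]
  refine Finset.sum_congr rfl fun y _ => ?_
  rw [Finset.mul_sum]
  refine Finset.sum_congr rfl fun z _ => ?_
  have e : (Equiv.sumArrowEquivProdArrow α β V).symm (y, z) = Sum.elim y z := by
    funext p
    cases p <;> simp
  rw [e, Fintype.prod_sum_type]
  simp only [Sum.elim_inl, Sum.elim_inr]
  ring

theorem Ex_equiv (e : α ≃ β) (F : (α → V) → ℝ) :
    Ex w (fun x : β → V => F (x ∘ e)) = Ex w F := by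
  unfold Ex
  rw [← (Equiv.arrowCongr e (Equiv.refl V)).sum_comp]
  refine Finset.sum_congr rfl fun y _ => ?_
  have h1 : ((Equiv.arrowCongr e (Equiv.refl V)) y) ∘ e = y := by
    funext p
    simp
  beta_reduce
  rw [h1]
  congr 1
  rw [← e.prod_comp]
  simp

theorem Ex_inj (hw : ∑ v, w v = 1) (θ : α → β) (hθ : Function.Injective θ)
    (F : (α → V) → ℝ) : Ex w (fun x : β → V => F (x ∘ θ)) = Ex w F := by
  classical
  let e : α ⊕ {j // j ∉ Set.range θ} ≃ β :=
    (Equiv.sumCongr (Equiv.ofInjective θ hθ) (Equiv.refl _)).trans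
      (Equiv.sumCompl fun j => j ∈ Set.range θ)
  have he : ∀ p, e (Sum.inl p) = θ p := fun p => by simp [e]
  have h1 := Ex_equiv w e (fun y => F (y ∘ Sum.inl))
  have h2 : (fun x : β → V => F (x ∘ θ)) = fun x : β → V => F ((x ∘ e) ∘ Sum.inl) := by
    funext x
    have : x ∘ θ = (x ∘ e) ∘ Sum.inl := by
      funext p
      simp [he]
    rw [this]
  rw [h2, h1, Ex_sum_type]
  congr 1
  funext y
  have : (fun z : {j // j ∉ Set.range θ} → V => F (Sum.elim y z ∘ Sum.inl)) = fun _ => F y := by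
    funext z
    congr 1
  rw [this, Ex_const w hw]

theorem Ex_avg (hw : ∑ v, w v = 1) (h : Fintype.card α ≤ Fintype.card β)
    (G : (β → V) → (α ↪ β) → ℝ) (F : (α → V) → ℝ) (hG : ∀ x θ, G x θ = F (x ∘ θ)) :
    Ex w (fun x : β → V => avg (G x)) = Ex w F := by
  have hne : Nonempty (α ↪ β) := Function.Embedding.nonempty_of_card_le h
  have hc : (Fintype.card (α ↪ β) : ℝ) ≠ 0 := by
    exact_mod_cast Fintype.card_ne_zero
  unfold avg
  simp only [div_eq_mul_inv]
  rw [Ex_mul_right, Ex_sum]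
  have : ∀ θ : α ↪ β, Ex w (fun x : β → V => G x θ) = Ex w F := fun θ => by
    simp only [hG]
    exact Ex_inj w hw θ θ.injective F
  simp only [this]
  rw [Finset.sum_const, Finset.card_univ, nsmul_eq_mul]
  field_simp

theorem Ex_push {V' : Type} [Fintype V'] [DecidableEq V'] (φ : V → V') (F : (α → V') → ℝ) :
    Ex w (fun x => F (φ ∘ x)) = Ex (fun v' => ∑ v, if φ v = v' then w v else 0) F := by
  unfold Ex
  have h : ∀ y : α → V', (∏ p, ∑ v, if φ v = y p then w v else 0) =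
      ∑ x : α → V, if φ ∘ x = y then ∏ p, w (x p) else 0 := by
    intro y
    have h := Finset.prod_univ_sum (fun _ : α => (Finset.univ : Finset V))
      (fun p v => if φ v = y p then w v else 0)
    rw [Fintype.piFinset_univ] at h
    rw [h]
    refine Finset.sum_congr rfl fun x _ => ?_
    split_ifs with hx
    · refine Finset.prod_congr rfl fun p _ => ?_
      exact if_pos (congrFun hx p)
    · obtain ⟨p, hp⟩ := Function.ne_iff.mp hx
      exact Finset.prod_eq_zero (Finset.mem_univ p) (if_neg hp)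
  simp only [h, Finset.sum_mul]
  rw [Finset.sum_comm]
  refine Finset.sum_congr rfl fun x _ => ?_
  rw [Finset.sum_eq_single (φ ∘ x)]
  · simp
  · intro y _ hy
    rw [if_neg (Ne.symm hy), zero_mul]
  · simp

theorem Ex_le_pow (u : V → ℝ) (c : ℝ) (hu : ∀ v, 0 ≤ u v) (huw : ∀ v, u v ≤ c * w v)
    {G : (α → V) → ℝ} (hG : ∀ x, 0 ≤ G x) : Ex u G ≤ c ^ Fintype.card α * Ex w G := by
  unfold Ex
  rw [Finset.mul_sum]
  refine Finset.sum_le_sum fun x _ => ?_
  rw [← mul_assoc]
  refine mul_le_mul_of_nonneg_right ?_ (hG x)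
  calc ∏ p, u (x p) ≤ ∏ p, (c * w (x p)) :=
        Finset.prod_le_prod (fun p _ => hu _) fun p _ => huw _
    _ = c ^ Fintype.card α * ∏ p, w (x p) := by
        rw [Finset.prod_mul_distrib, Finset.prod_const, Finset.card_univ]

theorem Ex_fin2 (F : V → V → ℝ) :
    Ex w (fun y : Fin 2 → V => F (y 0) (y 1)) = ∑ y, ∑ z, w y * w z * F y z := by
  unfold Ex
  rw [← (finTwoArrowEquiv V).symm.sum_comp, Fintype.sum_prod_type]
  simp [Fin.prod_univ_two]

theorem Ex_fin3 (F : V → V → V → ℝ) :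
    Ex w (fun y : Fin 3 → V => F (y 0) (y 1) (y 2)) =
      ∑ v, w v * ∑ y, ∑ z, w y * w z * F v y z := by
  let e : V × V × V ≃ (Fin 3 → V) :=
    { toFun := fun p => ![p.1, p.2.1, p.2.2]
      invFun := fun y => (y 0, y 1, y 2)
      left_inv := fun p => rfl
      right_inv := fun y => by
        funext i
        fin_cases i <;> rfl }
  unfold Ex
  rw [← e.sum_comp, Fintype.sum_prod_type]
  refine Finset.sum_congr rfl fun v _ => ?_
  rw [Fintype.sum_prod_type, Finset.mul_sum]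
  refine Finset.sum_congr rfl fun y _ => ?_
  rw [Finset.mul_sum]
  refine Finset.sum_congr rfl fun z _ => ?_
  simp [e, Fin.prod_univ_three]
  ring

end

open Polynomial in
/-- Extrapolation of a polynomial from `[T / (5 N ^ 2), T]` to `[0, T / (5 N ^ 2)]`. -/
theorem extrap (N : ℕ) (hN : 1 ≤ N) (S : ℝ[X]) (hS : S.natDegree ≤ N) (B T : ℝ) (hT : 0 < T)
    (hB : 0 < B) (h : ∀ b, T / (5 * (N : ℝ) ^ 2) ≤ b → b ≤ T → |S.eval b| ≤ B) (a : ℝ)
    (ha0 : 0 ≤ a) (ha1 : a ≤ T / (5 * (N : ℝ) ^ 2)) : S.eval a ≤ 3 * B := by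
  have hN1 : (1 : ℝ) ≤ N := by exact_mod_cast hN
  have hN2 : (1 : ℝ) ≤ (N : ℝ) ^ 2 := one_le_pow₀ hN1
  set η : ℝ := T / (5 * (N : ℝ) ^ 2) with hη
  have hη0 : 0 < η := by positivity
  have hTη : T = η * (5 * (N : ℝ) ^ 2) := by
    rw [hη]
    field_simp
  have hlt : 0 < T - η := by nlinarith
  set P : ℝ[X] := C (1 / B) * S.comp (C ((T + η) / 2) - C ((T - η) / 2) * X) with hP
  have hev : ∀ x, P.eval x = S.eval ((T + η) / 2 - (T - η) / 2 * x) / B := by
    intro x
    simp only [hP, eval_mul, eval_C, eval_comp, eval_sub, eval_X]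
    ring
  have hdeg : P.degree ≤ N := by
    refine degree_le_of_natDegree_le (le_trans (natDegree_C_mul_le _ _) ?_)
    refine le_trans natDegree_comp_le ?_
    have : (C ((T + η) / 2) - C ((T - η) / 2) * X : ℝ[X]).natDegree ≤ 1 := by
      refine le_trans (natDegree_sub_le _ _) (max_le ?_ ?_)
      · rw [natDegree_C]
        exact Nat.zero_le _
      · exact le_trans (natDegree_C_mul_le _ _) natDegree_X_le
    calc _ ≤ N * 1 := Nat.mul_le_mul hS this
      _ = N := mul_one N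
  have hbd : ∀ x ∈ Set.Icc (-1 : ℝ) 1, |P.eval x| ≤ 1 := by
    intro x hx
    rw [hev, abs_div, abs_of_pos hB, div_le_one hB]
    refine h _ ?_ ?_ <;> nlinarith [hx.1, hx.2]
  set x : ℝ := (T + η - 2 * a) / (T - η) with hx
  have hx1 : 1 ≤ x := by
    rw [hx, le_div_iff₀ hlt]
    linarith
  have hx2 : (x - 1) * (2 * (N : ℝ) ^ 2) ≤ 1 := by
    have : x - 1 = (2 * η - 2 * a) / (T - η) := by
      rw [hx]
      field_simp
      ring
    rw [this, div_mul_eq_mul_div, div_le_one hlt]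
    nlinarith [mul_nonneg ha0 (sq_nonneg (N : ℝ)), mul_le_mul_of_nonneg_left hN2 hη0.le]
  have key := Chebyshev.eval_iterate_derivative_le_of_forall_abs_le_one (k := 0) hx1 hdeg hbd
  simp only [Function.iterate_zero, id] at key
  have harg : (T + η) / 2 - (T - η) / 2 * x = a := by
    rw [hx]
    field_simp
    ring
  rw [hev, harg, div_le_iff₀ hB] at key
  refine le_trans key (mul_le_mul_of_nonneg_right ?_ hB.le)
  have hθ0 := Real.arcosh_nonneg hx1
  have hθ : Real.arcosh x ^ 2 ≤ x ^ 2 - 1 := by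
    have h1 : Real.arcosh x ≤ Real.sinh (Real.arcosh x) := Real.self_le_sinh_iff.mpr hθ0
    have h2 := Real.cosh_sq (Real.arcosh x)
    rw [Real.cosh_arcosh hx1] at h2
    nlinarith
  conv_lhs => rw [← Real.cosh_arcosh hx1, Chebyshev.T_real_cosh]
  refine le_trans (Real.cosh_le_exp_half_sq _) (le_trans ?_ Real.exp_one_lt_three.le)
  refine Real.exp_le_exp.mpr ?_
  have hx3 : x ≤ 2 := by nlinarith
  have h3 : x ^ 2 - 1 ≤ 3 * (x - 1) := by nlinarith
  push_cast
  rw [mul_pow]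
  nlinarith [mul_le_mul_of_nonneg_left (hθ.trans h3) (sq_nonneg (N : ℝ))]

end Pool.Agent.NoFlag
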