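import Pool.Agent.Work.MP_f1799f_co.NG.Est

/-!
Evaluation of a certificate on the two patterns, and the final comparison of orders.
-/

set_option autoImplicit false
set_option linter.unusedSectionVars false

namespace Pool.Agent.NoFlag

open Finset

theorem final (N : ℕ) (M e mT : ℝ) (mb mu Q Q' R : ℝ → ℝ) (hN : 4 ≤ N) (hM : 1 ≤ M)
    (hT : 1 ≤ mT)
    (h : ∀ a : ℝ, 0 ≤ a → a * N ≤ 1 / 6 → |mb a| ≤ M ∧ |mu a| ≤ M ∧ 0 ≤ Q a ∧ 0 ≤ Q' a ∧
      |R a| ≤ 54 * (N : ℝ) ^ 2 * M * a ^ 4 ∧ |mu a - mT| ≤ 18 * (N : ℝ) ^ 2 * M * a ^ 2 ∧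
      0 ≤ mb a * e - Q a ∧ 0 ≤ mu a * (e + 3 * a ^ 3) - Q' a - R a ∧
      mu a * (e + 3 * a ^ 3) - Q' a - R a ≤ 2 * (mb a * e - Q a))
    (hS : ∀ a : ℝ, 0 < a → a * N ≤ 1 / 6 → ∃ S : Polynomial ℝ, S.natDegree ≤ N ∧
      Q' a ≤ 4 * Q a + 2 * a ^ 4 * S.eval a ∧
      ∀ b, a ≤ b → b * N ≤ 1 / 6 → 0 ≤ S.eval b ∧ b ^ 4 * S.eval b ≤ 4 * Q' b + 8 * Q b) :
    1 / (10 ^ 13 * M ^ 4 * (N : ℝ) ^ 9) ≤ e := by
  have hN4 : (4 : ℝ) ≤ N := by exact_mod_cast hN
  set x : ℝ := (N : ℝ) with hx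
  have hx0 : 0 < x := by linarith
  have hM0 : 0 < M := by linarith
  have he0 : 0 ≤ e := by
    obtain ⟨-, -, -, h4, h5, h6, -, h8, -⟩ := h 0 le_rfl (by norm_num)
    have r0 : R 0 = 0 := by simpa using h5
    have m0 : mu 0 = mT := by simpa [sub_eq_zero] using h6
    rw [r0, m0] at h8
    by_contra hneg
    push Not at hneg
    nlinarith
  have hQ : ∀ b : ℝ, 0 ≤ b → b * x ≤ 1 / 6 → Q b ≤ M * e ∧ mb b * e - Q b ≤ M * e ∧
      Q' b ≤ M * e + 3 * M * b ^ 3 + 54 * x ^ 2 * M * b ^ 4 := by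
    intro b h0 h1
    obtain ⟨k1, k2, k3, -, k5, -, k7, k8, -⟩ := h b h0 h1
    have c1 := mul_le_mul_of_nonneg_right (le_trans (le_abs_self _) k1) he0
    have c2 : mu b * (e + 3 * b ^ 3) ≤ M * (e + 3 * b ^ 3) :=
      mul_le_mul_of_nonneg_right (le_trans (le_abs_self _) k2) (by positivity)
    have c3 := (abs_le.mp k5).1
    refine ⟨by linarith, by linarith, by linarith⟩
  set a : ℝ := 1 / (5000 * M * x ^ 3) with ha
  have ha0 : 0 < a := by positivity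
  have hax : a * (5000 * M * x ^ 3) = 1 := by
    rw [ha]
    field_simp
  set u : ℝ := 30 * x ^ 3 with hu
  have hu0 : 0 < u := by positivity
  have hx3 : 0 < a * x ^ 3 := by positivity
  have hua : u * a ≤ 1 := by
    have : a * x ^ 3 * 1 ≤ a * x ^ 3 * M := mul_le_mul_of_nonneg_left hM hx3.le
    nlinarith
  have hx2 : 16 ≤ x ^ 2 := by nlinarith
  have hax1 : a * x ≤ 1 / 6 := by
    have : a * x * 16 ≤ a * x * x ^ 2 := mul_le_mul_of_nonneg_left hx2 (by positivity)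
    nlinarith
  have hη : 1 / (6 * x) / (5 * x ^ 2) = 1 / u := by
    rw [hu]
    field_simp
    ring
  obtain ⟨S, hSd, hS1, hS2⟩ := hS a ha0 hax1
  set B : ℝ := 12 * M * e * u ^ 4 + 12 * M * u + 216 * M * x ^ 2 with hB
  have hSa : S.eval a ≤ 3 * B := by
    refine extrap N (by omega) S hSd B (1 / (6 * x)) (by positivity) (by positivity) ?_ a ha0.le ?_
    · intro b hb1 hb2
      rw [hη, div_le_iff₀ hu0] at hb1
      rw [le_div_iff₀ (by positivity)] at hb2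
      have hb0 : 0 < b := by
        by_contra hc
        push Not at hc
        nlinarith [mul_nonneg (neg_nonneg.mpr hc) hu0.le]
      have hab : a ≤ b := by
        by_contra hc
        push Not at hc
        nlinarith [mul_lt_mul_of_pos_right hc hu0]
      obtain ⟨s0, s1⟩ := hS2 b hab (by linarith)
      obtain ⟨q1, -, q3⟩ := hQ b hb0.le (by linarith)
      rw [abs_of_nonneg s0]
      have b4 : 0 < b ^ 4 := by positivity
      refine le_of_mul_le_mul_left (le_trans s1 ?_) b4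
      have c1 : 1 ≤ (b * u) ^ 4 := one_le_pow₀ hb1
      have c2 : M * e * 1 ≤ M * e * (b * u) ^ 4 := mul_le_mul_of_nonneg_left c1 (by positivity)
      have c3 : M * b ^ 3 * 1 ≤ M * b ^ 3 * (b * u) := mul_le_mul_of_nonneg_left hb1 (by positivity)
      have c4 : b ^ 4 * B = 12 * (M * e * (b * u) ^ 4) + 12 * (M * b ^ 3 * (b * u)) +
          216 * x ^ 2 * M * b ^ 4 := by
        rw [hB]
        ring
      linarith
    · rw [hη, le_div_iff₀ hu0]
      linarith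
  obtain ⟨-, -, -, -, k5, k6, -, -, k9⟩ := h a ha0.le hax1
  obtain ⟨q1, q2, -⟩ := hQ a ha0.le hax1
  have a3 : 0 < a ^ 3 := by positivity
  have d1 : 1 / 2 ≤ mu a := by
    have c1 := (abs_le.mp k6).1
    have c2 : 18 * x ^ 2 * M * a ^ 2 ≤ 1 / 2 := by
      have c3 : a * (M * x ^ 2) * 4 ≤ a * (M * x ^ 2) * x :=
        mul_le_mul_of_nonneg_left hN4 (by positivity)
      have c4 : a * (M * x ^ 2) ≤ 1 / 20000 := by nlinarith
      have c5 : a ≤ 1 := by nlinarith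
      have c6 : a * (M * x ^ 2) * a ≤ 1 / 20000 * 1 :=
        mul_le_mul c4 c5 ha0.le (by norm_num)
      nlinarith
    linarith
  have d2 : 1 / 2 * (e + 3 * a ^ 3) ≤ mu a * (e + 3 * a ^ 3) :=
    mul_le_mul_of_nonneg_right d1 (by positivity)
  have d3 : 2 * a ^ 4 * S.eval a ≤ 2 * a ^ 4 * (3 * B) :=
    mul_le_mul_of_nonneg_left hSa (by positivity)
  have d4 := (abs_le.mp k5).2
  have d5 : (u * a) ^ 4 ≤ 1 := pow_le_one₀ (by positivity) hua
  have d6 : M * e * (u * a) ^ 4 ≤ M * e * 1 := mul_le_mul_of_nonneg_left d5 (by positivity)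
  have d7 : a * (M * (72 * u + 1350 * x ^ 2)) ≤ 1 / 2 := by
    have c3 : a * (M * x ^ 2) * 4 ≤ a * (M * x ^ 2) * x :=
      mul_le_mul_of_nonneg_left hN4 (by positivity)
    rw [hu]
    nlinarith
  have d8 : a ^ 3 * (a * (M * (72 * u + 1350 * x ^ 2))) ≤ a ^ 3 * (1 / 2) :=
    mul_le_mul_of_nonneg_left d7 a3.le
  have d9 : 2 * a ^ 4 * (3 * B) + 54 * x ^ 2 * M * a ^ 4 =
      72 * (M * e * (u * a) ^ 4) + a ^ 3 * (a * (M * (72 * u + 1350 * x ^ 2))) := by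
    rw [hB]
    ring
  have d10 : a ^ 3 ≤ 78 * (M * e) := by linarith
  have d11 : a ^ 3 * (5000 * M * x ^ 3) ^ 3 = 1 := by rw [← mul_pow, hax, one_pow]
  rw [div_le_iff₀ (by positivity)]
  have d12 := mul_le_mul_of_nonneg_right d10 (show 0 ≤ (5000 * M * x ^ 3) ^ 3 by positivity)
  have d13 : 0 ≤ e * (M ^ 4 * x ^ 9) := by positivity
  have d14 : 78 * (M * e) * (5000 * M * x ^ 3) ^ 3 = 9750000000000 * (e * (M ^ 4 * x ^ 9)) := by
    ring
  have d15 : e * (10 ^ 13 * M ^ 4 * x ^ 9) = 10000000000000 * (e * (M ^ 4 * x ^ 9)) := by ring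
  linarith

section
variable {α β γ : Type} [Fintype α] [DecidableEq α] [Fintype β] [DecidableEq β] [Fintype γ]
  [DecidableEq γ]

theorem ind_gr (x : γ → V) {p q s : γ} (h1 : p ≠ q) (h2 : p ≠ s) (h3 : q ≠ s) :
    ind (gr x) p q s = if Pb (x p) (x q) (x s) = true then (1 : ℝ) else 0 := by
  unfold ind
  simp only [mem_gr x h1 h2 h3]

theorem Ex_sq_term (a : ℝ) (ψ : V → V) (hc : Fintype.card (α ⊕ β ⊕ β) ≤ Fintype.card γ)
    (f : Finset (Finset (α ⊕ β)) → ℝ) :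
    Ex (w a) (fun x : γ → V => avg fun θ : α ⊕ β ⊕ β ↪ γ =>
      f (sub (gr (ψ ∘ x)) (θ ∘ Sum.map id Sum.inl)) *
        f (sub (gr (ψ ∘ x)) (θ ∘ Sum.map id Sum.inr))) =
    Ex (w a) fun r : α → V =>
      Ex (w a) (fun z : β → V => f (gr (Sum.elim (ψ ∘ r) (ψ ∘ z)))) ^ 2 := by
  rw [Ex_avg (w a) (sum_w a) hc _ (fun y => f (gr (ψ ∘ y ∘ Sum.map id Sum.inl)) *
    f (gr (ψ ∘ y ∘ Sum.map id Sum.inr)))]
  · rw [Ex_sum_type]
    congr 1
    funext r
    rw [Ex_sum_type, sq, ← Ex_mul_right]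
    congr 1
    funext z
    rw [← Ex_mul_left]
    congr 1
    funext z'
    congr 3
    · funext p
      cases p <;> rfl
    · funext p
      cases p <;> rfl
  · intro x θ
    rw [sub_gr _ _ (θ.injective.comp (Sum.map_injective.mpr ⟨Function.injective_id,
      Sum.inl_injective⟩)), sub_gr _ _ (θ.injective.comp (Sum.map_injective.mpr
        ⟨Function.injective_id, Sum.inr_injective⟩))]
    rfl

theorem Ex_reg_term (a : ℝ) (ψ : V → V) (hc : Fintype.card (α ⊕ Fin 2) ≤ Fintype.card γ)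
    (g : Finset (Finset α) → ℝ) (i j : α) (d : V → ℝ)
    (hd : ∀ v, ∑ y, ∑ z, w a y * w a z *
      (if Pb (ψ v) (ψ y) (ψ z) = true then (1 : ℝ) else 0) = d v) :
    Ex (w a) (fun x : γ → V => avg fun θ : α ⊕ Fin 2 ↪ γ =>
      g (sub (gr (ψ ∘ x)) (θ ∘ Sum.inl)) *
        (ind (gr (ψ ∘ x)) (θ (Sum.inl i)) (θ (Sum.inr 0)) (θ (Sum.inr 1)) -
          ind (gr (ψ ∘ x)) (θ (Sum.inl j)) (θ (Sum.inr 0)) (θ (Sum.inr 1)))) =
    Ex (w a) fun r : α → V => g (gr (ψ ∘ r)) * (d (r i) - d (r j)) := by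
  rw [Ex_avg (w a) (sum_w a) hc _ (fun y => g (gr (ψ ∘ y ∘ Sum.inl)) *
    ((if Pb (ψ (y (Sum.inl i))) (ψ (y (Sum.inr 0))) (ψ (y (Sum.inr 1))) = true then (1 : ℝ) else 0)
      - if Pb (ψ (y (Sum.inl j))) (ψ (y (Sum.inr 0))) (ψ (y (Sum.inr 1))) = true then (1 : ℝ)
        else 0))]
  · rw [Ex_sum_type]
    congr 1
    funext r
    rw [← hd, ← hd, ← Ex_fin2, ← Ex_fin2, ← Ex_sub, ← Ex_mul_left]
    rfl
  · intro x θ
    rw [sub_gr _ _ (θ.injective.comp Sum.inl_injective),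
      ind_gr _ (by simp) (by simp) (by simp), ind_gr _ (by simp) (by simp) (by simp)]
    rfl

theorem Ex_mult_term (a c : ℝ) (ψ : V → V) (hc : Fintype.card (α ⊕ Fin 3) ≤ Fintype.card γ)
    (h : Finset (Finset α) → ℝ) (d : V → ℝ)
    (hd : ∀ v, ∑ y, ∑ z, w a y * w a z *
      (if Pb (ψ v) (ψ y) (ψ z) = true then (1 : ℝ) else 0) = d v) :
    Ex (w a) (fun x : γ → V => avg fun θ : α ⊕ Fin 3 ↪ γ =>
      h (sub (gr (ψ ∘ x)) (θ ∘ Sum.inl)) *
        (c - ind (gr (ψ ∘ x)) (θ (Sum.inr 0)) (θ (Sum.inr 1)) (θ (Sum.inr 2)))) =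
    Ex (w a) (fun r : α → V => h (gr (ψ ∘ r))) * (c - ∑ v, w a v * d v) := by
  rw [Ex_avg (w a) (sum_w a) hc _ (fun y => h (gr (ψ ∘ y ∘ Sum.inl)) *
    (c - if Pb (ψ (y (Sum.inr 0))) (ψ (y (Sum.inr 1))) (ψ (y (Sum.inr 2))) = true then (1 : ℝ)
        else 0))]
  · rw [Ex_sum_type, ← Ex_mul_right]
    congr 1
    funext r
    simp only [← hd]
    rw [← Ex_fin3 (w a) fun v y z => if Pb (ψ v) (ψ y) (ψ z) = true then (1 : ℝ) else 0]
    conv_rhs => rw [← Ex_const (α := Fin 3) (w a) (sum_w a) c]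
    rw [← Ex_sub, ← Ex_mul_left]
    rfl
  · intro x θ
    rw [sub_gr _ _ (θ.injective.comp Sum.inl_injective), ind_gr _ (by simp) (by simp) (by simp)]
    rfl

end

/-- The part of a vertex of the pattern in the underlying complete tripartite graph. -/
def prt (v : V) : ZMod 3 := if v.2 = true then v.1 + 1 else v.1

theorem Ab_iff : ∀ u v : V, Ab u v = true ↔ (¬u.2 = true ∧ ¬v.2 = true ∧ prt v = prt u + 1) ∨
    ((u.2 = true ∨ v.2 = true) ∧ prt u = prt v + 1) := by decide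

theorem gr_eq {α : Type} [Fintype α] (x : α → V) : gr x = fdf fun u v =>
    (u ∉ Finset.univ.filter (fun p => (x p).2 = true) ∧
      v ∉ Finset.univ.filter (fun p => (x p).2 = true) ∧ (prt ∘ x) v = (prt ∘ x) u + 1) ∨
    ((u ∈ Finset.univ.filter (fun p => (x p).2 = true) ∨
      v ∈ Finset.univ.filter (fun p => (x p).2 = true)) ∧ (prt ∘ x) u = (prt ∘ x) v + 1) := by
  unfold gr
  congr 1
  funext u v
  simp only [Ab_iff, Finset.mem_filter, Finset.mem_univ, true_and, Function.comp]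

theorem main (n : ℕ) (M c : ℝ) (t : ℕ) (k m : Fin t → ℕ)
    (f : ∀ i, Finset (Finset (Fin (k i) ⊕ Fin (m i))) → ℝ)
    (g : Finset (Finset (Fin (n + 2))) → ℝ) (h : Finset (Finset (Fin (n + 1))) → ℝ)
    (hkm : ∀ i, k i + 2 * m i ≤ n + 4) (hg : ∀ F, |g F| ≤ M) (hh : ∀ F, |h F| ≤ M)
    (hT : 1 ≤ avg (fun b : Fin (n + 1) → ZMod 3 => h (fdf fun u v => b v = b u + 1)))
    (hcert : ∀ x : Fin (n + 4) → V,
      ∑ i, avg (fun θ : Fin (k i) ⊕ Fin (m i) ⊕ Fin (m i) ↪ Fin (n + 4) =>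
          f i (sub (gr x) (θ ∘ Sum.map id Sum.inl)) * f i (sub (gr x) (θ ∘ Sum.map id Sum.inr)))
        + avg (fun θ : Fin (n + 2) ⊕ Fin 2 ↪ Fin (n + 4) => g (sub (gr x) (θ ∘ Sum.inl)) *
            (ind (gr x) (θ (Sum.inl 0)) (θ (Sum.inr 0)) (θ (Sum.inr 1)) -
              ind (gr x) (θ (Sum.inl 1)) (θ (Sum.inr 0)) (θ (Sum.inr 1))))
        ≤ avg (fun θ : Fin (n + 1) ⊕ Fin 3 ↪ Fin (n + 4) => h (sub (gr x) (θ ∘ Sum.inl)) *
            (c - ind (gr x) (θ (Sum.inr 0)) (θ (Sum.inr 1)) (θ (Sum.inr 2))))) :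
    5 / 9 + 1 / (10 ^ 13 * M ^ 4 * ((n + 4 : ℕ) : ℝ) ^ 9) ≤ c := by
  have hM : 1 ≤ M := by
    have hT' := hT
    rw [← Ex_low 0] at hT'
    exact le_trans hT' (le_trans (le_abs_self _)
      (Ex_abs_le _ (w_nonneg le_rfl (by norm_num)) (sum_w 0) fun _ => hh _))
  have hN1 : 1 ≤ n + 4 := by omega
  have key := final (n + 4) M (c - 5 / 9) _ (fun a => Ex (w a) fun r : Fin (n + 1) → V => h (gr r))
    (fun a => Ex (w a) fun r : Fin (n + 1) → V => h (gr (phi ∘ r)))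
    (fun a => ∑ i, Qb (f i) a) (fun a => ∑ i, Qu (f i) a)
    (fun a => a ^ 2 * Ex (w a) fun r : Fin (n + 2) → V =>
      g (gr (phi ∘ r)) * (gam (r 0) - gam (r 1))) (by omega) hM hT ?_ ?_
  · linarith
  swap
  · intro a h0 h1
    have hs := fun i => sq_bound (α := Fin (k i)) (β := Fin (m i)) hN1
      (by have := hkm i; rw [Fintype.card_fin]; omega) (f i) h0 h1
    choose S hS1 hS2 hS3 using hs
    refine ⟨∑ i, S i, ?_, ?_, fun b hab hb => ⟨?_, ?_⟩⟩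
    · refine Polynomial.natDegree_sum_le_of_forall_le _ _ fun i _ => le_trans (hS1 i) ?_
      have := hkm i
      rw [Fintype.card_fin]
      omega
    · rw [Polynomial.eval_finsetSum, Finset.mul_sum, Finset.mul_sum, ← Finset.sum_add_distrib]
      exact Finset.sum_le_sum fun i _ => hS2 i
    · rw [Polynomial.eval_finsetSum]
      exact Finset.sum_nonneg fun i _ => (hS3 i b hab hb).1
    · rw [Polynomial.eval_finsetSum, Finset.mul_sum, Finset.mul_sum, Finset.mul_sum,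
        ← Finset.sum_add_distrib]
      exact Finset.sum_le_sum fun i _ => (hS3 i b hab hb).2
  intro a h0 h1'
  have h1 := le_sixth hN1 h0 h1'
  have hw := w_nonneg h0 h1
  set Φ : (Fin (n + 4) → V) → ℝ := fun x =>
    avg (fun θ : Fin (n + 1) ⊕ Fin 3 ↪ Fin (n + 4) => h (sub (gr x) (θ ∘ Sum.inl)) *
        (c - ind (gr x) (θ (Sum.inr 0)) (θ (Sum.inr 1)) (θ (Sum.inr 2)))) -
      ∑ i, avg (fun θ : Fin (k i) ⊕ Fin (m i) ⊕ Fin (m i) ↪ Fin (n + 4) =>
          f i (sub (gr x) (θ ∘ Sum.map id Sum.inl)) * f i (sub (gr x) (θ ∘ Sum.map id Sum.inr)))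
        - avg (fun θ : Fin (n + 2) ⊕ Fin 2 ↪ Fin (n + 4) => g (sub (gr x) (θ ∘ Sum.inl)) *
            (ind (gr x) (θ (Sum.inl 0)) (θ (Sum.inr 0)) (θ (Sum.inr 1)) -
              ind (gr x) (θ (Sum.inl 1)) (θ (Sum.inr 0)) (θ (Sum.inr 1)))) with hΦ
  have hΦ0 : ∀ x, 0 ≤ Φ x := fun x => by
    have := hcert x
    simp only [hΦ]
    linarith
  have hci : ∀ i, Fintype.card (Fin (k i) ⊕ Fin (m i) ⊕ Fin (m i)) ≤
      Fintype.card (Fin (n + 4)) := fun i => by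
    have := hkm i
    simp only [Fintype.card_sum, Fintype.card_fin]
    omega
  have hc2 : Fintype.card (Fin (n + 2) ⊕ Fin 2) ≤ Fintype.card (Fin (n + 4)) := by simp
  have hc3 : Fintype.card (Fin (n + 1) ⊕ Fin 3) ≤ Fintype.card (Fin (n + 4)) := by simp
  have eb : Ex (w a) Φ = Ex (w a) (fun r : Fin (n + 1) → V => h (gr r)) * (c - 5 / 9) -
      ∑ i, Qb (f i) a := by
    have e1 := Ex_mult_term a c id hc3 h (fun _ => 5 / 9) (deg_id a)
    have e2 := Ex_reg_term a id hc2 g 0 1 (fun _ => 5 / 9) (deg_id a)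
    have e3 := fun i => Ex_sq_term a id (hci i) (f i)
    simp only [Function.id_comp] at e1 e2 e3
    rw [← Finset.sum_mul, sum_w, one_mul] at e1
    simp only [sub_self, mul_zero, Ex_const (w a) (sum_w a)] at e2
    rw [hΦ, Ex_sub, Ex_sub, Ex_sum, e1, e2, sub_zero]
    simp only [e3]
    rfl
  have eu : Ex (w a) (fun x => Φ (phi ∘ x)) =
      Ex (w a) (fun r : Fin (n + 1) → V => h (gr (phi ∘ r))) * (c - 5 / 9 + 3 * a ^ 3) -
      ∑ i, Qu (f i) a - a ^ 2 * Ex (w a) fun r : Fin (n + 2) → V =>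
        g (gr (phi ∘ r)) * (gam (r 0) - gam (r 1)) := by
    have e1 := Ex_mult_term a c phi hc3 h _ (deg_phi a)
    have e2 := Ex_reg_term a phi hc2 g 0 1 _ (deg_phi a)
    have e3 := fun i => Ex_sq_term a phi (hci i) (f i)
    rw [sum_w_gam] at e1
    simp only [hΦ]
    rw [Ex_sub, Ex_sub, Ex_sum, e1, e2, ← Ex_mul_left]
    simp only [e3]
    congr 1
    · congr 1
      ring
    · congr 1
      funext r
      ring
  refine ⟨Ex_abs_le _ hw (sum_w a) fun _ => hh _, Ex_abs_le _ hw (sum_w a) fun _ => hh _,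
    Finset.sum_nonneg fun i _ => Qb_nonneg _ h0 h1,
    Finset.sum_nonneg fun i _ => Qu_nonneg _ h0 h1, ?_, ?_, ?_, ?_, ?_⟩
  · have := reg_bound (N := n + 4) h0 h1 (by simp) g hg 0 1
    rw [abs_mul, abs_of_nonneg (sq_nonneg a)]
    calc _ ≤ _ := mul_le_mul_of_nonneg_left this (sq_nonneg a)
      _ = _ := by ring
  · have := mult_bound (N := n + 4) h0 h1 (by simp) h hh
    calc _ ≤ _ := this
      _ = _ := by ring
  · rw [← eb]
    exact Ex_nonneg _ hw hΦ0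
  · rw [← eu]
    exact Ex_nonneg _ hw fun x => hΦ0 _
  · rw [← eu, ← eb]
    exact Ex_phi_le hN1 h0 h1' hΦ0 (by simp)

end Pool.Agent.NoFlag
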