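import Pool.Agent.Work.MP_f1799f_co.NG.Ex

/-!
The six-vertex pattern (two levels of the Kostochka family) and its weightings.
-/

set_option autoImplicit false

namespace Pool.Agent.NoFlag

open Finset

/-- Vertices of the pattern: a part and a level. -/
abbrev V : Type := ZMod 3 × Bool

/-- Arcs of the pattern. -/
def Ab (u v : V) : Bool :=
  (!u.2 && decide (v.1 = u.1 + 1)) || (u.2 && !v.2 && decide (v.1 = u.1)) ||
    (u.2 && v.2 && decide (v.1 = u.1 + 2))

/-- Good triples of the pattern. -/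
def Pb (a b c : V) : Bool :=
  !((!Ab a b && !Ab b a && !Ab a c && !Ab c a) || (!Ab a b && !Ab b a && !Ab b c && !Ab c b) ||
      (!Ab a c && !Ab c a && !Ab b c && !Ab c b)) &&
    !((Ab a b && Ab a c) || (Ab b a && Ab b c) || (Ab c a && Ab c b))

/-- The 3-graph pulled back from the pattern. -/
noncomputable def gr {α : Type} [Fintype α] (x : α → V) : Finset (Finset α) :=
  fdf fun u v => Ab (x u) (x v) = true

/-- Merge two of the three upper vertices into the lower level. -/
def phi (v : V) : V := if v = (2, true) then v else (v.1, false)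

/-- Merge all upper vertices into the lower level. -/
def low (v : V) : V := (v.1, false)

/-- Rotation of the parts. -/
def rot (v : V) : V := (v.1 + 1, v.2)

theorem Ab_irr : ∀ u : V, Ab u u = false := by decide

theorem Ab_asym : ∀ u v : V, Ab u v = true → ¬Ab v u = true := by decide

theorem Ab_c4 : ∀ a b c d : V, Ab a b = true → Ab b c = true → Ab c d = true → Ab d a = true →
    Ab a c = true ∨ Ab c a = true ∨ Ab b d = true ∨ Ab d b = true := by decide +kernel

theorem Pb_k4 : ∀ a b c d : V, Pb a b c = true → Pb a b d = true → Pb a c d = true →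
    Pb b c d = false := by decide +kernel

theorem Ab_rot : ∀ u v : V, Ab (rot u) (rot v) = Ab u v := by decide

theorem Pb_one : ∀ u v z : V, ¬(u.2 = true ∧ v.2 = true) → ¬(u.2 = true ∧ z.2 = true) →
    ¬(v.2 = true ∧ z.2 = true) → Pb (phi u) (phi v) (phi z) = Pb (low u) (low v) (low z) := by
  decide +kernel

theorem phi_low : ∀ v : V, v.2 = false → phi v = v := by decide

theorem phi_phi : ∀ v : V, phi (phi v) = phi v := by decide

theorem phi_snd : ∀ v : V, (phi v).2 = true → v.2 = true := by decide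

/-- A triple with at most one upper vertex fixed by `phi`, at most one further upper vertex. -/
theorem Pb_two : ∀ u v z : V, (u.2 = false ∨ v.2 = false ∨ z.2 = false) →
    ¬(phi u ≠ u ∧ phi v ≠ v) → ¬(phi u ≠ u ∧ phi z ≠ z) → ¬(phi v ≠ v ∧ phi z ≠ z) →
    Pb (phi u) (phi v) (phi z) = Pb u v z := by decide +kernel

section
variable {α β : Type} [Fintype α] [DecidableEq α] [Fintype β] [DecidableEq β]

omit [DecidableEq α] in
theorem mem_fdf (r : α → α → Prop) (s : Finset α) : s ∈ fdf r ↔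
    s.card = 3 ∧ (¬∃ v ∈ s, ∀ u ∈ s, ¬r u v ∧ ¬r v u) ∧ ¬∃ v ∈ s, ∀ u ∈ s, u ≠ v → r v u := by
  unfold fdf
  simp only [Finset.mem_filter, Finset.mem_univ, true_and]

theorem mem_gr (x : α → V) {u v z : α} (h1 : u ≠ v) (h2 : u ≠ z) (h3 : v ≠ z) :
    ({u, v, z} : Finset α) ∈ gr x ↔ Pb (x u) (x v) (x z) = true := by
  unfold gr
  rw [mem_fdf]
  have hc : ({u, v, z} : Finset α).card = 3 := Finset.card_eq_three.mpr ⟨u, v, z, h1, h2, h3, rfl⟩
  simp only [hc, true_and, Finset.mem_insert, Finset.mem_singleton, exists_eq_or_imp,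
    forall_eq_or_imp, exists_eq_left, forall_eq, ne_eq, not_true_eq_false, h1, h2, h3, h1.symm,
    h2.symm, h3.symm, not_false_eq_true, Ab_irr, Pb]
  generalize Ab (x u) (x v) = b1
  generalize Ab (x v) (x u) = b2
  generalize Ab (x u) (x z) = b3
  generalize Ab (x z) (x u) = b4
  generalize Ab (x v) (x z) = b5
  generalize Ab (x z) (x v) = b6
  cases b1 <;> cases b2 <;> cases b3 <;> cases b4 <;> cases b5 <;> cases b6 <;> simp

omit [DecidableEq α] in
theorem gr_card (x : α → V) (s : Finset α) (h : s ∈ gr x) : s.card = 3 :=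
  ((mem_fdf _ s).mp h).1

theorem gr_congr {x y : α → V} (h : ∀ u v z, u ≠ v → u ≠ z → v ≠ z →
    Pb (x u) (x v) (x z) = Pb (y u) (y v) (y z)) : gr x = gr y := by
  ext s
  by_cases hs : s.card = 3
  · obtain ⟨u, v, z, h1, h2, h3, rfl⟩ := Finset.card_eq_three.mp hs
    rw [mem_gr x h1 h2 h3, mem_gr y h1 h2 h3, h u v z h1 h2 h3]
  · exact ⟨fun hx => absurd (gr_card x s hx) hs, fun hy => absurd (gr_card y s hy) hs⟩

omit [DecidableEq α] in
theorem sub_gr (x : β → V) (θ : α → β) (hθ : Function.Injective θ) :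
    sub (gr x) θ = gr (x ∘ θ) := by
  ext s
  unfold sub gr
  rw [Finset.mem_filter, mem_fdf, mem_fdf, Finset.card_image_of_injective _ hθ]
  simp only [Finset.mem_univ, true_and, Finset.mem_image, exists_exists_and_eq_and,
    forall_exists_index, and_imp, forall_apply_eq_imp_iff₂, ne_eq, hθ.eq_iff, Function.comp]

theorem gr_k4 (x : α → V) (S : Finset α) (hS : S.card = 4) :
    ∃ T ⊆ S, T.card = 3 ∧ T ∉ gr x := by
  obtain ⟨a, b, c, d, hab, hac, had, hbc, hbd, hcd, rfl⟩ := Finset.card_eq_four.mp hS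
  by_contra hcon
  push Not at hcon
  have key : ∀ u v z : α, u ≠ v → u ≠ z → v ≠ z → u ∈ ({a, b, c, d} : Finset α) →
      v ∈ ({a, b, c, d} : Finset α) → z ∈ ({a, b, c, d} : Finset α) →
      Pb (x u) (x v) (x z) = true := by
    intro u v z h1 h2 h3 hu hv hz
    rw [← mem_gr x h1 h2 h3]
    refine hcon _ ?_ (Finset.card_eq_three.mpr ⟨u, v, z, h1, h2, h3, rfl⟩)
    intro t ht
    simp only [Finset.mem_insert, Finset.mem_singleton] at ht
    rcases ht with rfl | rfl | rfl <;> assumption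
  have h1 := key a b c hab hac hbc (by simp) (by simp) (by simp)
  have h2 := key a b d hab had hbd (by simp) (by simp) (by simp)
  have h3 := key a c d hac had hcd (by simp) (by simp) (by simp)
  have h4 := key b c d hbc hbd hcd (by simp) (by simp) (by simp)
  rw [Pb_k4 _ _ _ _ h1 h2 h3] at h4
  exact Bool.false_ne_true h4

omit [DecidableEq α] in
theorem gr_rot (x : α → V) : gr (rot ∘ x) = gr x := by
  unfold gr
  simp only [Function.comp, Ab_rot]

omit [DecidableEq α] in
theorem gr_low (x : α → V) :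
    gr (low ∘ x) = fdf fun u v => (Prod.fst ∘ x) v = (Prod.fst ∘ x) u + 1 := by
  unfold gr
  congr 1
  funext u v
  simp [Ab, low]

/-- At least two coordinates lie on the upper level. -/
def Two (x : α → V) : Prop := ∃ p q, p ≠ q ∧ (x p).2 = true ∧ (x q).2 = true

theorem gr_phi_low {x : α → V} (h : ¬Two x) : gr (phi ∘ x) = gr (low ∘ x) := by
  refine gr_congr fun u v z h1 h2 h3 => Pb_one _ _ _ ?_ ?_ ?_
  · exact fun hh => h ⟨u, v, h1, hh.1, hh.2⟩
  · exact fun hh => h ⟨u, z, h2, hh.1, hh.2⟩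
  · exact fun hh => h ⟨v, z, h3, hh.1, hh.2⟩

theorem gr_elim_two {r : α → V} {z : β → V} (hr : ¬Two r) (hz : ¬Two z) :
    gr (Sum.elim (phi ∘ r) (phi ∘ z)) = gr (Sum.elim (phi ∘ r) z) := by
  have e : Sum.elim (phi ∘ r) (phi ∘ z) = phi ∘ Sum.elim (phi ∘ r) z := by
    funext p
    cases p <;> simp [phi_phi]
  rw [e]
  set y : α ⊕ β → V := Sum.elim (phi ∘ r) z with hy
  have hmov : ∀ p q : α ⊕ β, p ≠ q → ¬(phi (y p) ≠ y p ∧ phi (y q) ≠ y q) := by
    rintro (p | p) (q | q) hpq ⟨h1, h2⟩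
    · exact h1 (phi_phi _)
    · exact h1 (phi_phi _)
    · exact h2 (phi_phi _)
    · refine hz ⟨p, q, fun h => hpq (by rw [h]), ?_, ?_⟩
      · by_contra hc
        exact h1 (phi_low _ (Bool.eq_false_iff.mpr hc))
      · by_contra hc
        exact h2 (phi_low _ (Bool.eq_false_iff.mpr hc))
  have hl : ∀ p q : α, p ≠ q → ¬((y (Sum.inl p)).2 = true ∧ (y (Sum.inl q)).2 = true) :=
    fun p q hpq hh => hr ⟨p, q, hpq, phi_snd _ hh.1, phi_snd _ hh.2⟩
  have hrr : ∀ p q : β, p ≠ q → ¬((y (Sum.inr p)).2 = true ∧ (y (Sum.inr q)).2 = true) :=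
    fun p q hpq hh => hz ⟨p, q, hpq, hh.1, hh.2⟩
  refine gr_congr fun u v t h1 h2 h3 =>
    Pb_two _ _ _ ?_ (hmov u v h1) (hmov u t h2) (hmov v t h3)
  by_contra hc
  simp only [not_or, Bool.not_eq_false] at hc
  obtain ⟨c1, c2, c3⟩ := hc
  rcases u with u | u <;> rcases v with v | v <;> rcases t with t | t
  · exact hl u v (fun h => h1 (by rw [h])) ⟨c1, c2⟩
  · exact hl u v (fun h => h1 (by rw [h])) ⟨c1, c2⟩
  · exact hl u t (fun h => h2 (by rw [h])) ⟨c1, c3⟩
  · exact hrr v t (fun h => h3 (by rw [h])) ⟨c2, c3⟩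
  · exact hl v t (fun h => h3 (by rw [h])) ⟨c2, c3⟩
  · exact hrr u t (fun h => h2 (by rw [h])) ⟨c1, c3⟩
  · exact hrr u v (fun h => h1 (by rw [h])) ⟨c1, c2⟩
  · exact hrr u v (fun h => h1 (by rw [h])) ⟨c1, c2⟩

end

/-- The balanced weighting with mass `a` on each upper vertex. -/
noncomputable def w (a : ℝ) (v : V) : ℝ := if v.2 = true then a else 1 / 3 - a

theorem sumV (F : V → ℝ) : ∑ v, F v = F (0, false) + F (0, true) + F (1, false) + F (1, true) +
    F (2, false) + F (2, true) := by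
  rw [Fintype.sum_prod_type]
  have h : ∀ G : ZMod 3 → ℝ, ∑ b, G b = G 0 + G 1 + G 2 := fun G => Fin.sum_univ_three G
  rw [h]
  simp only [Fintype.sum_bool]
  ring

theorem casesV : ∀ v : V, v = (0, false) ∨ v = (0, true) ∨ v = (1, false) ∨ v = (1, true) ∨
    v = (2, false) ∨ v = (2, true) := by decide

theorem sum_w (a : ℝ) : ∑ v, w a v = 1 := by
  rw [sumV]
  simp [w]
  ring

theorem w_nonneg {a : ℝ} (h0 : 0 ≤ a) (h1 : a ≤ 1 / 6) (v : V) : 0 ≤ w a v := by
  unfold w
  split_ifs <;> linarith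

/-- Second-order term of the degrees in the unbalanced pattern. -/
noncomputable def gam (v : V) : ℝ :=
  if v.1 = 0 then -1 else if v.1 = 1 then 0 else if v.2 = true then -2 else 1

theorem deg_id (a : ℝ) (v : V) :
    ∑ y, ∑ z, w a y * w a z * (if Pb v y z = true then (1 : ℝ) else 0) = 5 / 9 := by
  simp only [sumV]
  rcases casesV v with rfl | rfl | rfl | rfl | rfl | rfl <;>
    simp +decide only [w, if_true, if_false] <;> ring

theorem deg_phi (a : ℝ) (v : V) :
    ∑ y, ∑ z, w a y * w a z * (if Pb (phi v) (phi y) (phi z) = true then (1 : ℝ) else 0) =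
      5 / 9 + a ^ 2 * gam v := by
  simp only [sumV]
  rcases casesV v with rfl | rfl | rfl | rfl | rfl | rfl <;>
    simp +decide only [w, gam, if_true, if_false] <;> ring

theorem sum_w_gam (a : ℝ) : ∑ v, w a v * (5 / 9 + a ^ 2 * gam v) = 5 / 9 - 3 * a ^ 3 := by
  simp only [sumV]
  simp +decide only [w, gam, if_true, if_false]
  ring

theorem gam_rot (v : V) :
    gam v + gam (rot v) + gam (rot (rot v)) = if v.2 = true then -3 else 0 := by
  rcases casesV v with rfl | rfl | rfl | rfl | rfl | rfl <;>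
    simp +decide only [gam, if_true, if_false] <;> ring

theorem gam_diff (u v : V) : |gam u - gam v| ≤ 3 := by
  have h : ∀ v : V, -2 ≤ gam v ∧ gam v ≤ 1 := by
    intro v
    unfold gam
    split_ifs <;> norm_num
  rw [abs_le]
  constructor <;> linarith [(h u).1, (h u).2, (h v).1, (h v).2]

theorem w_le_mul {a b : ℝ} (h0 : 0 ≤ a) (hab : a ≤ b) (h1 : b ≤ 1 / 6) (v : V) :
    w a v ≤ (1 - 3 * b)⁻¹ * w b v := by
  have hp : 0 < 1 - 3 * b := by linarith
  rw [le_inv_mul_iff₀ hp]
  unfold w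
  split_ifs <;> nlinarith [mul_nonneg h0 (h0.trans hab), mul_nonneg h0 hp.le]

theorem push_phi {a : ℝ} (h0 : 0 ≤ a) (h1 : a ≤ 1 / 6) (v' : V) :
    0 ≤ (∑ v, if phi v = v' then w a v else 0) ∧
      (∑ v, if phi v = v' then w a v else 0) ≤ (1 - 3 * a)⁻¹ * w a v' := by
  have hp : 0 < 1 - 3 * a := by linarith
  rw [le_inv_mul_iff₀ hp]
  simp only [sumV]
  rcases casesV v' with rfl | rfl | rfl | rfl | rfl | rfl <;>
    simp +decide only [w, if_true, if_false] <;> constructor <;> nlinarith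

theorem push_rot (a : ℝ) : (fun v' => ∑ v, if rot v = v' then w a v else 0) = w a := by
  funext v'
  simp only [sumV]
  rcases casesV v' with rfl | rfl | rfl | rfl | rfl | rfl <;>
    simp +decide only [w, if_true, if_false] <;> ring

theorem push_fst (a : ℝ) :
    (fun b : ZMod 3 => ∑ v : V, if v.1 = b then w a v else 0) = fun _ => 1 / 3 := by
  funext b
  simp only [sumV]
  have hb : ∀ b : ZMod 3, b = 0 ∨ b = 1 ∨ b = 2 := by decide
  rcases hb b with rfl | rfl | rfl <;>
    simp +decide only [w, if_true, if_false] <;> ring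

end Pool.Agent.NoFlag
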