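import Pool.Agent.Work.MP_f1799f_co.GlueMain

/-!
A tetrahedron-free 3-graph whose vertex set splits into two sides, each carrying a copy of the
Turan construction (parts indexed by `ZMod 3`), has at most `5/2 (m0 + m1)^3` edges, where `m s`
bounds the part sizes on side `s`.
-/

set_option autoImplicit false

namespace Pool.Agent.Results.MP_f1799f_co.TwoTuranGluing

theorem result (n : ℕ) (E : Finset (Finset (Fin n))) (hE : ∀ e ∈ E, e.card = 3)
    (hK : ∀ S : Finset (Fin n), S.card = 4 → ∃ T ⊆ S, T.card = 3 ∧ T ∉ E)
    (side : Fin n → Bool) (part : Fin n → ZMod 3) (m : Bool → ℕ)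
    (hm : ∀ s i, (Finset.univ.filter fun v => side v = s ∧ part v = i).card ≤ m s)
    (hT : ∀ a b c, side b = side a → side c = side a → a ≠ c → part b = part a + 1 →
      (part c = part a ∨ part c = part a + 2) → ({a, b, c} : Finset (Fin n)) ∈ E) :
    2 * E.card ≤ 5 * (m false + m true) ^ 3 :=
  Pool.Agent.Glue.glue E hE hK side part m hm hT

end Pool.Agent.Results.MP_f1799f_co.TwoTuranGluing
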